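import Pool.Agent.Run7.h865.LW.Iface

set_option autoImplicit false

/-! Piece TEST of the project LW of helper865: the test sequence. -/

open Polynomial Finset

namespace Pool.Agent.Run7.h547.LW

/-- the geometric series `1 / (1 - X ^ (k + 1))` -/
noncomputable def geo (k : ℕ) : PowerSeries ℤ := PowerSeries.mk fun n => if (k + 1) ∣ n then (1 : ℤ) else 0

theorem geo_mul (k : ℕ) : (1 - PowerSeries.X ^ (k + 1)) * geo k = 1 := by
  ext n
  rw [sub_mul, one_mul, map_sub, PowerSeries.coeff_X_pow_mul', PowerSeries.coeff_one]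
  simp only [geo, PowerSeries.coeff_mk]
  rcases Nat.lt_or_ge n (k + 1) with h | h
  · rw [if_neg (Nat.not_le.2 h), sub_zero]
    by_cases h0 : n = 0
    · subst h0; simp
    · rw [if_neg h0, if_neg (fun hd => by have := Nat.le_of_dvd (Nat.pos_of_ne_zero h0) hd; omega)]
  · rw [if_pos h, if_neg (show n ≠ 0 by omega)]
    have h1 : (k + 1) ∣ n ↔ (k + 1) ∣ (n - (k + 1)) := by
      constructor
      · intro hd; exact Nat.dvd_sub hd (dvd_refl _)
      · intro hd
        have := Nat.dvd_add hd (dvd_refl (k + 1))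
        rwa [Nat.sub_add_cancel h] at this
    simp only [h1, sub_self]

/-- the coefficients are nonnegative and of polynomial growth -/
def Bd (t : ℕ) (U : PowerSeries ℤ) : Prop :=
  ∀ n : ℕ, 0 ≤ PowerSeries.coeff n U ∧ PowerSeries.coeff n U ≤ ((n : ℤ) + 1) ^ t

theorem bd_mul {t : ℕ} {U : PowerSeries ℤ} (h : Bd t U) (k : ℕ) : Bd (t + 1) (U * geo k) := by
  intro n
  rw [PowerSeries.coeff_mul]
  have h1 : ∀ p ∈ antidiagonal n, 0 ≤ PowerSeries.coeff p.1 U * PowerSeries.coeff p.2 (geo k) ∧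
      PowerSeries.coeff p.1 U * PowerSeries.coeff p.2 (geo k) ≤ ((n : ℤ) + 1) ^ t := by
    intro p hp
    have hp1 : p.1 ≤ n := by have := mem_antidiagonal.1 hp; omega
    obtain ⟨h2, h3⟩ := h p.1
    have h4 : ((p.1 : ℤ) + 1) ^ t ≤ ((n : ℤ) + 1) ^ t :=
      pow_le_pow_left₀ (by positivity) (by exact_mod_cast Nat.succ_le_succ hp1) t
    have h5 : (0 : ℤ) ≤ ((n : ℤ) + 1) ^ t := by positivity
    simp only [geo, PowerSeries.coeff_mk]
    split_ifs
    · rw [mul_one]; exact ⟨h2, h3.trans h4⟩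
    · rw [mul_zero]; exact ⟨le_refl _, h5⟩
  refine ⟨Finset.sum_nonneg fun p hp => (h1 p hp).1, ?_⟩
  refine (Finset.sum_le_sum fun p hp => (h1 p hp).2).trans ?_
  rw [Finset.sum_const, Finset.Nat.card_antidiagonal, nsmul_eq_mul, pow_succ]
  push_cast
  rw [mul_comm]

theorem bd_pow {t : ℕ} {U : PowerSeries ℤ} (h : Bd t U) (k s : ℕ) : Bd (t + s) (U * geo k ^ s) := by
  induction s with
  | zero => simpa using h
  | succ s ih =>
    rw [pow_succ, ← mul_assoc, ← add_assoc]
    exact bd_mul ih k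

theorem bd_one : Bd 0 1 := by
  intro n
  rw [PowerSeries.coeff_one]
  split_ifs <;> simp

theorem bd_prod (J m : ℕ) : Bd (∑ k ∈ range m, (J - 1 - k)) (∏ k ∈ range m, geo k ^ (J - 1 - k)) := by
  induction m with
  | zero => simpa using bd_one
  | succ m ih =>
    rw [Finset.prod_range_succ, Finset.sum_range_succ]
    exact bd_pow ih m _

theorem inv_B (J : ℕ) : ∃ U : PowerSeries ℤ, (Polynomial.coeToPowerSeries.ringHom (h865.LW.B J)) * U = 1 ∧
    ∀ n : ℕ, 0 ≤ PowerSeries.coeff n U ∧ PowerSeries.coeff n U ≤ ((n : ℤ) + 1) ^ (J * J) := by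
  refine ⟨∏ k ∈ range J, geo k ^ (J - 1 - k), ?_, fun n => ?_⟩
  · unfold h865.LW.B
    rw [map_prod, ← Finset.prod_mul_distrib]
    refine Finset.prod_eq_one fun k _ => ?_
    rw [map_pow, ← mul_pow, map_sub, map_one, map_pow]
    have : (Polynomial.coeToPowerSeries.ringHom (X : ℤ[X])) = PowerSeries.X := by
      simp
    rw [this, geo_mul, one_pow]
  · obtain ⟨h1, h2⟩ := bd_prod J J n
    refine ⟨h1, h2.trans ?_⟩
    refine pow_le_pow_right₀ (by linarith [Int.natCast_nonneg n]) ?_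
    calc ∑ k ∈ range J, (J - 1 - k) ≤ ∑ k ∈ range J, J := Finset.sum_le_sum fun k _ => by omega
      _ = J * J := by rw [Finset.sum_const, card_range, smul_eq_mul]

theorem coeff_mul_range (F : ℤ[X]) (U : PowerSeries ℤ) (n m : ℕ) (hF : ∀ k, m ≤ k → F.coeff k = 0) :
    PowerSeries.coeff n ((F : PowerSeries ℤ) * U) =
      ∑ k ∈ range m, F.coeff k * (if k ≤ n then PowerSeries.coeff (n - k) U else 0) := by
  rw [PowerSeries.coeff_mul, Finset.Nat.sum_antidiagonal_eq_sum_range_succ_mk]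
  simp only [Polynomial.coeff_coe]
  have h1 : ∑ k ∈ range n.succ, F.coeff k * PowerSeries.coeff (n - k) U =
      ∑ k ∈ range n.succ, F.coeff k * (if k ≤ n then PowerSeries.coeff (n - k) U else 0) := by
    refine Finset.sum_congr rfl fun k hk => ?_
    rw [if_pos (by have := mem_range.1 hk; omega)]
  rw [h1]
  have h2 : ∑ k ∈ range n.succ, F.coeff k * (if k ≤ n then PowerSeries.coeff (n - k) U else 0) =
      ∑ k ∈ range (n.succ + m), F.coeff k * (if k ≤ n then PowerSeries.coeff (n - k) U else 0) := by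
    refine Finset.sum_subset (range_subset_range.2 (by omega)) fun k _ hk => ?_
    rw [if_neg (by rw [mem_range] at hk; omega), mul_zero]
  have h3 : ∑ k ∈ range m, F.coeff k * (if k ≤ n then PowerSeries.coeff (n - k) U else 0) =
      ∑ k ∈ range (n.succ + m), F.coeff k * (if k ≤ n then PowerSeries.coeff (n - k) U else 0) := by
    refine Finset.sum_subset (range_subset_range.2 (by omega)) fun k _ hk => ?_
    rw [hF k (by rw [mem_range] at hk; omega), zero_mul]
  rw [h2, h3]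

theorem digits (X0 m : ℤ) (hX : 2 * m < X0) : ∀ (d : ℕ) (S : ℕ → ℤ), (∀ i < d, |S i| ≤ m) →
    ∑ i ∈ range d, X0 ^ i * S i = 0 → ∀ i < d, S i = 0 := by
  intro d
  induction d with
  | zero => intro S _ _ i hi; omega
  | succ d ih =>
    intro S hS h0
    have hm : 0 ≤ m := (abs_nonneg _).trans (hS 0 (Nat.succ_pos d))
    have hX0 : 0 < X0 := by linarith
    rw [Finset.sum_range_succ'] at h0
    have h1 : ∑ k ∈ range d, X0 ^ (k + 1) * S (k + 1) = X0 * ∑ k ∈ range d, X0 ^ k * S (k + 1) := by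
      rw [Finset.mul_sum]
      exact Finset.sum_congr rfl fun k _ => by ring
    rw [h1, pow_zero, one_mul] at h0
    have h2 : S 0 = 0 := by
      have h3 : X0 ∣ S 0 := ⟨-∑ k ∈ range d, X0 ^ k * S (k + 1), by linarith⟩
      refine Int.eq_zero_of_abs_lt_dvd h3 ?_
      have := hS 0 (Nat.succ_pos d)
      linarith
    rw [h2, add_zero] at h0
    have h4 : ∑ k ∈ range d, X0 ^ k * S (k + 1) = 0 := by
      rcases mul_eq_zero.1 h0 with h | h
      · exact absurd h hX0.ne'
      · exact h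
    have h5 := ih (fun k => S (k + 1)) (fun i hi => hS (i + 1) (Nat.succ_lt_succ hi)) h4
    intro i hi
    cases i with
    | zero => exact h2
    | succ i => exact h5 i (Nat.lt_of_succ_lt_succ hi)

/-- the shifted and reversed coefficients -/
noncomputable def ww (U : PowerSeries ℤ) (N i j : ℕ) : ℤ :=
  if i + j < N then PowerSeries.coeff (N - 1 - i - j) U else 0

theorem ww_sum (U : PowerSeries ℤ) (N i n : ℕ) (F : ℤ[X]) (m a : ℕ) (hF : ∀ k, m ≤ k → F.coeff k = 0)
    (hn : n + i + a = N - 1) (hN : 1 ≤ N) :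
    ∑ k ∈ range m, F.coeff k * ww U N i (a + k) = PowerSeries.coeff n ((F : PowerSeries ℤ) * U) := by
  rw [coeff_mul_range F U n m hF]
  refine Finset.sum_congr rfl fun k _ => ?_
  unfold ww
  congr 1
  by_cases h : k ≤ n
  · rw [if_pos h, if_pos (by omega), show N - 1 - i - (a + k) = n - k by omega]
  · rw [if_neg h, if_neg (by omega)]

theorem dvd_of_coeff (B F : ℤ[X]) (U : PowerSeries ℤ) (hU : (B : PowerSeries ℤ) * U = 1) (N : ℕ)
    (hD : B.natDegree < N) (hF : ∀ k, N ≤ k → F.coeff k = 0)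
    (h0 : ∀ n, N - B.natDegree ≤ n → n < N → PowerSeries.coeff n ((F : PowerSeries ℤ) * U) = 0) :
    B ∣ F := by
  obtain ⟨r, hr⟩ : ∃ r, N - B.natDegree = r + 1 := ⟨N - B.natDegree - 1, by omega⟩
  refine ⟨PowerSeries.trunc (r + 1) ((F : PowerSeries ℤ) * U), ?_⟩
  ext n
  rcases Nat.lt_or_ge n N with h | h
  · have h1 : (F : PowerSeries ℤ) = (B : PowerSeries ℤ) * ((F : PowerSeries ℤ) * U) := by
      calc (F : PowerSeries ℤ) = (F : PowerSeries ℤ) * ((B : PowerSeries ℤ) * U) := by rw [hU, mul_one]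
        _ = _ := by ring
    have h2 : F.coeff n = PowerSeries.coeff n ((B : PowerSeries ℤ) * ((F : PowerSeries ℤ) * U)) := by
      rw [← h1, Polynomial.coeff_coe]
    rw [h2, PowerSeries.coeff_mul, Polynomial.coeff_mul]
    refine Finset.sum_congr rfl fun p hp => ?_
    have hp2 : p.2 ≤ n := by have := mem_antidiagonal.1 hp; omega
    rw [Polynomial.coeff_coe, PowerSeries.coeff_trunc]
    congr 1
    split_ifs with h3
    · rfl
    · exact h0 p.2 (by omega) (by omega)
  · rw [hF n h, Polynomial.coeff_eq_zero_of_natDegree_lt]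
    have h1 := Polynomial.natDegree_mul_le (p := B)
      (q := PowerSeries.trunc (r + 1) ((F : PowerSeries ℤ) * U))
    have h2 := PowerSeries.natDegree_trunc_lt ((F : PowerSeries ℤ) * U) r
    omega

theorem L_eq (f : ℕ → ℤ) (P : ℤ[X]) :
    h865.LW.L f P = ∑ k ∈ range (P.natDegree + 1), P.coeff k * f k := by
  unfold h865.LW.L
  rw [Polynomial.sum_over_range]
  · simp only [smul_eq_mul]
  · intro n; simp

theorem core (B : ℤ[X]) (U : PowerSeries ℤ) (hU : (B : PowerSeries ℤ) * U = 1) (N : ℕ) (M X0 : ℤ)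
    (hD : B.natDegree < N) (hM : ∀ n < N, 0 ≤ PowerSeries.coeff n U ∧ PowerSeries.coeff n U ≤ M)
    (hM1 : 0 ≤ M) (hX : 2 * (N * M) < X0) : ∃ w : ℕ → ℤ,
      (∀ j : ℕ, j + B.natDegree < N → h865.LW.L (fun k => w (j + k)) B = 0) ∧
      (∀ ε : ℕ → ℤ, (∀ j, |ε j| ≤ 1) → ∑ j ∈ range N, ε j * w j = 0 →
        B ∣ ∑ j ∈ range N, C (ε j) * X ^ j) ∧
      ∀ j, |w j| ≤ M * ∑ i ∈ range B.natDegree, X0 ^ i := by
  have hN : 1 ≤ N := by omega
  have hX0 : 0 < X0 := by
    have : (0 : ℤ) ≤ N * M := by positivity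
    linarith
  have hww : ∀ i j, 0 ≤ ww U N i j ∧ ww U N i j ≤ M := by
    intro i j
    unfold ww
    split_ifs with h
    · exact hM _ (by omega)
    · exact ⟨le_refl _, hM1⟩
  refine ⟨fun j => ∑ i ∈ range B.natDegree, X0 ^ i * ww U N i j, fun j hj => ?_, fun ε hε h0 => ?_,
    fun j => ?_⟩
  · rw [L_eq]
    have h1 : ∑ k ∈ range (B.natDegree + 1), B.coeff k * ∑ i ∈ range B.natDegree, X0 ^ i * ww U N i (j + k) =
        ∑ i ∈ range B.natDegree, X0 ^ i * ∑ k ∈ range (B.natDegree + 1), B.coeff k * ww U N i (j + k) := by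
      simp only [Finset.mul_sum]
      rw [Finset.sum_comm]
      exact Finset.sum_congr rfl fun i _ => Finset.sum_congr rfl fun k _ => by ring
    rw [h1]
    refine Finset.sum_eq_zero fun i hi => ?_
    rw [mem_range] at hi
    rw [ww_sum U N i (N - 1 - i - j) B (B.natDegree + 1) j
      (fun k hk => Polynomial.coeff_eq_zero_of_natDegree_lt (by omega)) (by omega) hN, hU,
      PowerSeries.coeff_one, if_neg (by omega), mul_zero]
  · set F : ℤ[X] := ∑ j ∈ range N, C (ε j) * X ^ j with hF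
    have hFc : ∀ k, F.coeff k = if k < N then ε k else 0 := by
      intro k
      rw [hF, Polynomial.finsetSum_coeff]
      simp only [Polynomial.coeff_C_mul_X_pow]
      rw [Finset.sum_ite_eq (range N) k ε]
      simp only [mem_range]
    have hF0 : ∀ k, N ≤ k → F.coeff k = 0 := fun k hk => by rw [hFc, if_neg (by omega)]
    have h1 : ∑ i ∈ range B.natDegree, X0 ^ i * ∑ j ∈ range N, ε j * ww U N i j = 0 := by
      rw [← h0]
      simp only [Finset.mul_sum]
      rw [Finset.sum_comm]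
      exact Finset.sum_congr rfl fun i _ => Finset.sum_congr rfl fun k _ => by ring
    have h2 : ∀ i < B.natDegree, |∑ j ∈ range N, ε j * ww U N i j| ≤ N * M := by
      intro i _
      refine (Finset.abs_sum_le_sum_abs _ _).trans ?_
      have h3 : ∀ j ∈ range N, |ε j * ww U N i j| ≤ M := by
        intro j _
        rw [abs_mul, abs_of_nonneg (hww i j).1]
        calc |ε j| * ww U N i j ≤ 1 * ww U N i j := mul_le_mul_of_nonneg_right (hε j) (hww i j).1
          _ ≤ M := by rw [one_mul]; exact (hww i j).2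
      refine (Finset.sum_le_sum h3).trans ?_
      rw [Finset.sum_const, card_range, nsmul_eq_mul]
    have h3 := digits X0 (N * M) hX B.natDegree _ h2 h1
    refine dvd_of_coeff B F U hU N hD hF0 fun n hn1 hn2 => ?_
    have h4 := h3 (N - 1 - n) (by omega)
    have h5 := ww_sum U N (N - 1 - n) n F N 0 hF0 (by omega) hN
    rw [← h5]
    simp only [zero_add]
    rw [← h4]
    refine Finset.sum_congr rfl fun k hk => ?_
    rw [hFc, if_pos (mem_range.1 hk)]
  · have h1 : ∀ i ∈ range B.natDegree, 0 ≤ X0 ^ i * ww U N i j := fun i _ =>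
      mul_nonneg (pow_nonneg hX0.le i) (hww i j).1
    rw [abs_of_nonneg (Finset.sum_nonneg h1), Finset.mul_sum]
    refine Finset.sum_le_sum fun i _ => ?_
    rw [mul_comm M]
    exact mul_le_mul_of_nonneg_left (hww i j).2 (pow_nonneg hX0.le i)

theorem t_TEST : h865.LW.S_TEST := by
  intro J N hJ hN
  obtain ⟨U, hU, hU2⟩ := inv_B J
  unfold h865.LW.D at hN ⊢
  set B := h865.LW.B J with hB
  set D := B.natDegree with hD
  have hN1 : 1 ≤ N := by omega
  have hNz : (1 : ℤ) ≤ N := by exact_mod_cast hN1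
  set M : ℤ := (N : ℤ) ^ (J * J) with hM
  set X0 : ℤ := (4 * (N : ℤ)) ^ (J * J + 2) with hX0
  have hM0 : 0 ≤ M := by positivity
  have hbd : ∀ n < N, 0 ≤ PowerSeries.coeff n U ∧ PowerSeries.coeff n U ≤ M := by
    intro n hn
    obtain ⟨h1, h2⟩ := hU2 n
    refine ⟨h1, h2.trans (pow_le_pow_left₀ (by positivity) (by exact_mod_cast hn) _)⟩
  have hNM : (N : ℤ) * M = (N : ℤ) ^ (J * J + 1) := by rw [hM, pow_succ]; ring
  have hX1 : 2 * ((N : ℤ) * M) < X0 := by
    rw [hNM, hX0, mul_pow]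
    have h1 : (16 : ℤ) ≤ 4 ^ (J * J + 2) := by
      calc (16 : ℤ) = 4 ^ 2 := by norm_num
        _ ≤ 4 ^ (J * J + 2) := pow_le_pow_right₀ (by norm_num) (by omega)
    have h2 : (N : ℤ) ^ (J * J + 1) ≤ (N : ℤ) ^ (J * J + 2) := pow_le_pow_right₀ hNz (by omega)
    have h3 : (0 : ℤ) < (N : ℤ) ^ (J * J + 1) := by positivity
    nlinarith
  obtain ⟨w, hw1, hw2, hw3⟩ := core B U hU N M X0 hN hbd hM0 hX1
  refine ⟨w, hw1, hw2, ?_⟩
  have hX2 : (2 : ℤ) ≤ X0 := by
    have : (0 : ℤ) < (N : ℤ) * M := by rw [hNM]; positivity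
    linarith
  have hgeo : ∀ d : ℕ, ∑ i ∈ range d, X0 ^ i ≤ X0 ^ d := by
    intro d
    induction d with
    | zero => simp
    | succ d ih =>
      rw [Finset.sum_range_succ, pow_succ]
      have : 0 ≤ X0 ^ d := by positivity
      nlinarith
  have h4N : (1 : ℤ) ≤ 4 * (N : ℤ) := by linarith
  calc ∑ j ∈ range N, |w j| ≤ ∑ j ∈ range N, M * ∑ i ∈ range D, X0 ^ i := Finset.sum_le_sum fun j _ => hw3 j
    _ = (N * M) * ∑ i ∈ range D, X0 ^ i := by rw [Finset.sum_const, card_range, nsmul_eq_mul]; ring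
    _ ≤ (N * M) * X0 ^ D := mul_le_mul_of_nonneg_left (hgeo D) (by positivity)
    _ ≤ (4 * (N : ℤ)) ^ (J * J + 1) * X0 ^ D := by
        refine mul_le_mul_of_nonneg_right ?_ (by positivity)
        rw [hNM]
        exact pow_le_pow_left₀ (by positivity) (by linarith) _
    _ = (4 * (N : ℤ)) ^ (J * J + 1 + (J * J + 2) * D) := by rw [hX0, ← pow_mul, ← pow_add]
    _ ≤ (4 * (N : ℤ)) ^ ((J * J + 3) * (D + 1)) := by
        refine pow_le_pow_right₀ h4N ?_
        nlinarith

end Pool.Agent.Run7.h547.LW
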